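import Pool.Agent.N641.VB.Stm6
import Pool.Agent.N81.VB.ST5

set_option autoImplicit false

/-!
# Project VB (helper641), leaf SW6 (helper164): countably many codes in interpreted algebras, general interpretations

Adapted from `Pool/Agent/N81/VB/ST5.lean` (helper81) and `Pool/Agent/N765/VB/ST3.lean` (helper765).
-/

namespace Pool.Agent.N164.VB.SW6

open Set MeasureTheory FirstOrder FirstOrder.Language
open Pool.Agent.N641.VB
open Pool.Agent.N765.VB.ST3 (pick pick_eq meas_pick meas_form Tr tr_iso)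
open Pool.Agent.N81.VB.ST5 (tpc_sur PPc_sur)

/-! ### Codes -/

/-- the ideal given by a set of types -/
def Id0 {M : Type} (G : Set (FT M)) (le : ℕ → ℕ → Prop) (mu : ℕ → M) (b : ℕ) : Prop :=
  ∃ t ∈ G, ∀ k, tpc le mu k b = t k

/-- the code -/
def Code {M : Type} (G : Set (FT M)) (le : ℕ → ℕ → Prop) (mu : ℕ → M) (i a : ℕ) : Prop :=
  ∃ b, le b a ∧ PPc le (Id0 G le mu) i b

theorem code_sur {M : Type} (G : Set (FT M)) {f : ℕ → ℕ} (hf : Function.Surjective f)
    (le : ℕ → ℕ → Prop) (mu : ℕ → M) (i a : ℕ) :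
    Code G (fun x y => le (f x) (f y)) (fun x => mu (f x)) i a ↔ Code G le mu i (f a) := by
  unfold Code
  refine Iff.trans ?_ hf.exists.symm
  refine exists_congr fun b => and_congr_right fun _ => ?_
  have h : Id0 G (fun x y => le (f x) (f y)) (fun x => mu (f x)) = fun b => Id0 G le mu (f b) := by
    funext b
    unfold Id0
    simp only [tpc_sur hf]
  rw [h]
  exact PPc_sur hf le _ i b

theorem code_rel {M : Type} (G : Set (FT M)) {le le' : ℕ → ℕ → Prop} {mu mu' : ℕ → M}
    {ρ ρ' : ℕ → ℕ} (hρ : Function.Surjective ρ) (hρ' : Function.Surjective ρ')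
    (h1 : ∀ x y, le (ρ x) (ρ y) ↔ le' (ρ' x) (ρ' y)) (h2 : ∀ x, mu (ρ x) = mu' (ρ' x)) (i z : ℕ) :
    Code G le mu i (ρ z) ↔ Code G le' mu' i (ρ' z) := by
  rw [← code_sur G hρ, ← code_sur G hρ']
  have e1 : (fun x y => le (ρ x) (ρ y)) = fun x y => le' (ρ' x) (ρ' y) := by
    funext x y
    exact propext (h1 x y)
  have e2 : (fun x => mu (ρ x)) = fun x => mu' (ρ' x) := funext h2
  rw [e1, e2]

/-- the code does not depend on the enumeration -/
theorem code_enum {M X : Type} (G : Set (FT M)) {h h' : ℕ → X} (hs : Function.Surjective h)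
    (hs' : Function.Surjective h') (leX : X → X → Prop) (muX : X → M) {a a' : ℕ}
    (haa : h a = h' a') (i : ℕ) :
    Code G (fun x y => leX (h x) (h y)) (fun x => muX (h x)) i a ↔
      Code G (fun x y => leX (h' x) (h' y)) (fun x => muX (h' x)) i a' := by
  have hne : Nonempty {q : ℕ × ℕ // h q.1 = h' q.2} := ⟨⟨(a, a'), haa⟩⟩
  obtain ⟨s, hsur⟩ := exists_surjective_nat {q : ℕ × ℕ // h q.1 = h' q.2}
  obtain ⟨z, hz⟩ := hsur ⟨(a, a'), haa⟩
  have h1 : Function.Surjective fun z => (s z).1.1 := by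
    intro x
    obtain ⟨y, hy⟩ := hs' (h x)
    obtain ⟨w, hw⟩ := hsur ⟨(x, y), hy.symm⟩
    exact ⟨w, by simp only [hw]⟩
  have h2 : Function.Surjective fun z => (s z).1.2 := by
    intro y
    obtain ⟨x, hx⟩ := hs (h' y)
    obtain ⟨w, hw⟩ := hsur ⟨(x, y), hx⟩
    exact ⟨w, by simp only [hw]⟩
  have h3 := code_rel G (le := fun x y => leX (h x) (h y)) (le' := fun x y => leX (h' x) (h' y))
    (mu := fun x => muX (h x)) (mu' := fun x => muX (h' x)) h1 h2
    (fun x y => by
      show leX (h (s x).1.1) (h (s y).1.1) ↔ leX (h' (s x).1.2) (h' (s y).1.2)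
      rw [(s x).2, (s y).2])
    (fun x => by
      show muX (h (s x).1.1) = muX (h' (s x).1.2)
      rw [(s x).2]) i z
  simp only [hz] at h3
  exact h3

/-! ### The relations of a structure -/

variable {L : FirstOrder.Language.{0, 0}} {n t : ℕ}

/-- a pair of tuples -/
def pr (u w : Fin t → ℕ) : Fin 2 × Fin t → ℕ := fun ij => if ij.1 = 0 then u ij.2 else w ij.2

/-- the domain -/
def domS (dom : L.Formula (Fin n ⊕ Fin t)) (S : L.Structure ℕ) (p : Fin n → ℕ) (u : Fin t → ℕ) :
    Prop := @Formula.Realize L ℕ S _ dom (Sum.elim p u)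

/-- the order on tuples -/
def leT (φ : L.Formula (Fin n ⊕ Fin 2 × Fin t)) (S : L.Structure ℕ) (p : Fin n → ℕ)
    (u w : Fin t → ℕ) : Prop := @Formula.Realize L ℕ S _ φ (Sum.elim p (pr u w))

/-- the measure on tuples -/
noncomputable def muT {M : Type} [Zero M] (ψ : M → L.Formula (Fin n ⊕ Fin t)) (S : L.Structure ℕ)
    (p : Fin n → ℕ) (u : Fin t → ℕ) : M :=
  pick (fun c => @Formula.Realize L ℕ S _ (ψ c) (Sum.elim p u))

theorem dom_tr {S S' : L.Structure ℕ} {σ : ℕ ≃ ℕ} (h : Tr S S' σ) (dom : L.Formula (Fin n ⊕ Fin t))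
    (p : Fin n → ℕ) (u : Fin t → ℕ) :
    domS dom S' (fun i => σ (p i)) (fun i => σ (u i)) ↔ domS dom S p u := by
  unfold domS
  rw [← h _ dom (Sum.elim p u)]
  have h : (fun i => σ (Sum.elim p u i)) = Sum.elim (fun i => σ (p i)) fun i => σ (u i) := by
    funext i
    rcases i with i | i <;> rfl
  rw [h]

theorem le_tr {S S' : L.Structure ℕ} {σ : ℕ ≃ ℕ} (h : Tr S S' σ)
    (φ : L.Formula (Fin n ⊕ Fin 2 × Fin t)) (p : Fin n → ℕ) (u w : Fin t → ℕ) :
    leT φ S' (fun i => σ (p i)) (fun i => σ (u i)) (fun i => σ (w i)) ↔ leT φ S p u w := by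
  unfold leT
  rw [← h _ φ (Sum.elim p (pr u w))]
  have h : (fun i => σ (Sum.elim p (pr u w) i)) =
      Sum.elim (fun i => σ (p i)) (pr (fun i => σ (u i)) fun i => σ (w i)) := by
    funext i
    rcases i with i | ⟨i, j⟩
    · rfl
    · show σ (if i = 0 then u j else w j) = if i = 0 then σ (u j) else σ (w j)
      split_ifs <;> rfl
  rw [h]

theorem mu_tr {S S' : L.Structure ℕ} {σ : ℕ ≃ ℕ} (h : Tr S S' σ) {M : Type} [Zero M]
    (ψ : M → L.Formula (Fin n ⊕ Fin t)) (p : Fin n → ℕ) (u : Fin t → ℕ) :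
    muT ψ S' (fun i => σ (p i)) (fun i => σ (u i)) = muT ψ S p u := by
  unfold muT
  congr 1
  funext c
  exact propext (dom_tr h (ψ c) p u)

open Classical in
/-- the enumeration of the domain -/
noncomputable def hat (dom : L.Formula (Fin n ⊕ Fin t)) (S : L.Structure ℕ) (p : Fin n → ℕ)
    (d : Fin t → ℕ) (enc : ℕ → (Fin t → ℕ)) (x : ℕ) : Fin t → ℕ :=
  if domS dom S p (enc x) then enc x else d

theorem hat_dom {dom : L.Formula (Fin n ⊕ Fin t)} {S : L.Structure ℕ} {p : Fin n → ℕ}
    {d : Fin t → ℕ} (hd : domS dom S p d) (enc : ℕ → (Fin t → ℕ)) (x : ℕ) :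
    domS dom S p (hat dom S p d enc x) := by
  unfold hat
  split_ifs with h
  · exact h
  · exact hd

theorem hat_eq {dom : L.Formula (Fin n ⊕ Fin t)} {S : L.Structure ℕ} {p : Fin n → ℕ}
    {d : Fin t → ℕ} {enc : ℕ → (Fin t → ℕ)} {x : ℕ} (h : domS dom S p (enc x)) :
    hat dom S p d enc x = enc x := by
  unfold hat
  rw [if_pos h]

theorem meas_hat (dom : L.Formula (Fin n ⊕ Fin t)) (p : Fin n → ℕ) (d : Fin t → ℕ)
    (enc : ℕ → (Fin t → ℕ)) (x : ℕ) (u : Fin t → ℕ) :
    @MeasurableSet _ (SM L) {S : L.Structure ℕ | hat dom S p d enc x = u} := by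
  let _ : MeasurableSpace (L.Structure ℕ) := SM L
  have h0 : MeasurableSet {S : L.Structure ℕ | domS dom S p (enc x)} := meas_form dom _
  have e1 : {S : L.Structure ℕ | hat dom S p d enc x = u} =
      ({S : L.Structure ℕ | domS dom S p (enc x)} ∩ {_S | enc x = u}) ∪
      ({S : L.Structure ℕ | domS dom S p (enc x)}ᶜ ∩ {_S | d = u}) := by
    ext S
    simp only [mem_inter_iff, mem_union, mem_compl_iff, mem_ofPred_eq]
    unfold hat
    by_cases h : domS dom S p (enc x)
    · rw [if_pos h]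
      exact ⟨fun h1 => Or.inl ⟨h, h1⟩, fun h1 => h1.elim (fun h2 => h2.2) fun h2 => absurd h h2.1⟩
    · rw [if_neg h]
      exact ⟨fun h1 => Or.inr ⟨h, h1⟩, fun h1 => h1.elim (fun h2 => absurd h2.1 h) fun h2 => h2.2⟩
  rw [e1]
  exact (h0.inter (MeasurableSet.const _)).union (h0.compl.inter (MeasurableSet.const _))

/-- the order on numbers -/
def leH (dom : L.Formula (Fin n ⊕ Fin t)) (φ : L.Formula (Fin n ⊕ Fin 2 × Fin t))
    (S : L.Structure ℕ) (p : Fin n → ℕ) (d : Fin t → ℕ) (enc : ℕ → (Fin t → ℕ)) (x y : ℕ) : Prop :=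
  leT φ S p (hat dom S p d enc x) (hat dom S p d enc y)

/-- the measure on numbers -/
noncomputable def muH {M : Type} [Zero M] (dom : L.Formula (Fin n ⊕ Fin t))
    (ψ : M → L.Formula (Fin n ⊕ Fin t)) (S : L.Structure ℕ) (p : Fin n → ℕ) (d : Fin t → ℕ)
    (enc : ℕ → (Fin t → ℕ)) (x : ℕ) : M := muT ψ S p (hat dom S p d enc x)

theorem meas_leH (dom : L.Formula (Fin n ⊕ Fin t)) (φ : L.Formula (Fin n ⊕ Fin 2 × Fin t))
    (p : Fin n → ℕ) (d : Fin t → ℕ) (enc : ℕ → (Fin t → ℕ)) (x y : ℕ) :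
    @MeasurableSet _ (SM L) {S : L.Structure ℕ | leH dom φ S p d enc x y} := by
  let _ : MeasurableSpace (L.Structure ℕ) := SM L
  have e1 : {S : L.Structure ℕ | leH dom φ S p d enc x y} =
      ⋃ u : Fin t → ℕ, ⋃ w : Fin t → ℕ, (({S : L.Structure ℕ | hat dom S p d enc x = u} ∩
        {S : L.Structure ℕ | hat dom S p d enc y = w}) ∩ {S : L.Structure ℕ | leT φ S p u w}) := by
    ext S
    simp only [mem_iUnion, mem_inter_iff, mem_ofPred_eq]
    constructor
    · intro h
      exact ⟨_, _, ⟨rfl, rfl⟩, h⟩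
    · rintro ⟨u, w, ⟨h1, h2⟩, h3⟩
      unfold leH
      rw [h1, h2]
      exact h3
  rw [e1]
  exact MeasurableSet.iUnion fun u => MeasurableSet.iUnion fun w =>
    ((meas_hat dom p d enc x u).inter (meas_hat dom p d enc y w)).inter (meas_form φ _)

theorem meas_muH {M : Type} [Finite M] [Zero M] (dom : L.Formula (Fin n ⊕ Fin t))
    (ψ : M → L.Formula (Fin n ⊕ Fin t)) (p : Fin n → ℕ) (d : Fin t → ℕ)
    (enc : ℕ → (Fin t → ℕ)) (x : ℕ) (v : M) :
    @MeasurableSet _ (SM L) {S : L.Structure ℕ | muH dom ψ S p d enc x = v} := by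
  let _ : MeasurableSpace (L.Structure ℕ) := SM L
  have e1 : {S : L.Structure ℕ | muH dom ψ S p d enc x = v} =
      ⋃ u : Fin t → ℕ, ({S : L.Structure ℕ | hat dom S p d enc x = u} ∩
        {S : L.Structure ℕ | muT ψ S p u = v}) := by
    ext S
    simp only [mem_iUnion, mem_inter_iff, mem_ofPred_eq]
    constructor
    · intro h
      exact ⟨_, rfl, h⟩
    · rintro ⟨u, h1, h3⟩
      unfold muH
      rw [h1]
      exact h3
  rw [e1]
  refine MeasurableSet.iUnion fun u => (meas_hat dom p d enc x u).inter ?_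
  exact meas_pick (fun (S : L.Structure ℕ) c => @Formula.Realize L ℕ S _ (ψ c) (Sum.elim p u))
    (fun c => meas_form (ψ c) _) v

theorem meas_Id (MEA : S_MEA) {M : Type} [Finite M] [Zero M] (dom : L.Formula (Fin n ⊕ Fin t))
    (φ : L.Formula (Fin n ⊕ Fin 2 × Fin t)) (ψ : M → L.Formula (Fin n ⊕ Fin t)) (G : Set (FT M))
    (hG : G.Countable) (p : Fin n → ℕ) (d : Fin t → ℕ) (enc : ℕ → (Fin t → ℕ)) (b : ℕ) :
    @MeasurableSet _ (SM L) {S : L.Structure ℕ |
      Id0 G (leH dom φ S p d enc) (muH dom ψ S p d enc) b} := by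
  let _ : MeasurableSpace (L.Structure ℕ) := SM L
  have e1 : {S : L.Structure ℕ | Id0 G (leH dom φ S p d enc) (muH dom ψ S p d enc) b} =
      ⋃ t ∈ G, ⋂ k, {S : L.Structure ℕ |
        tpc (leH dom φ S p d enc) (muH dom ψ S p d enc) k b = t k} := by
    ext S
    simp only [mem_iUnion, mem_iInter, mem_ofPred_eq, Id0, exists_prop]
  rw [e1]
  exact MeasurableSet.biUnion hG fun t _ => MeasurableSet.iInter fun k =>
    (MEA M).2 (L.Structure ℕ) (fun S => leH dom φ S p d enc) (fun S => muH dom ψ S p d enc)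
      (fun a b => meas_leH dom φ p d enc a b) (fun a v => meas_muH dom ψ p d enc a v) k b (t k)

/-- the code of the algebra -/
theorem code_alg (MEA : S_MEA) (MEW : S_MEW) {M : Type} [Finite M] [Zero M] (G : Set (FT M))
    (bo : BooleanAlgebra ℕ) (mu : ℕ → M) (i a : ℕ) :
    Code G bo.le mu i a ↔ i ∈ @WW ℕ bo (fun b => @ft M ℕ bo mu b ∈ G) a := by
  have h : Id0 G bo.le mu = fun b => @ft M ℕ bo mu b ∈ G := by
    funext b
    refine propext ⟨?_, ?_⟩
    · rintro ⟨t, ht, h1⟩
      have h2 : @ft M ℕ bo mu b = t := by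
        funext k
        rw [← h1 k, (MEA M).1 bo mu k b]
        rfl
      rw [h2]
      exact ht
    · intro hb
      exact ⟨_, hb, fun k => (MEA M).1 bo mu k b⟩
  unfold Code
  rw [h]
  exact (MEW.1 bo (fun b => @ft M ℕ bo mu b ∈ G) i a).symm

open Classical in
/-- Leaf SW6. -/
theorem SW6 (SIL : S_SIL) (MEA : S_MEA) (MEW : S_MEW) : S_SW6 := by
  intro L hL T M _ _ n t dom φ ψ G hG hT
  obtain ⟨cd, hcd⟩ := exists_surjective_nat ((Fin n → ℕ) × (Fin t → ℕ) × ℕ)
  obtain ⟨enc, henc⟩ := exists_surjective_nat (Fin t → ℕ)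
  let V : L.Structure ℕ → ℕ → (ℕ → Bool) := fun S m i =>
    decide (domS dom S (cd m).1 (cd m).2.1 ∧
      Code G (leH dom φ S (cd m).1 (cd m).2.1 enc) (muH dom ψ S (cd m).1 (cd m).2.1 enc) i
        (cd m).2.2)
  have hV : ∀ S m i, V S m i = true ↔ domS dom S (cd m).1 (cd m).2.1 ∧
      Code G (leH dom φ S (cd m).1 (cd m).2.1 enc) (muH dom ψ S (cd m).1 (cd m).2.1 enc) i
        (cd m).2.2 := fun S m i => decide_eq_true_iff
  have h1 := SIL L hL T V ?_ ?_ hT
  · refine (h1.image fun v : ℕ → Bool => {i : ℕ | v i = true}).mono ?_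
    rintro w ⟨S, p, bo, mu, f, a, hS, hd, hm, rfl⟩
    obtain ⟨u, hu, hfu⟩ := hd.surj a
    obtain ⟨a', ha'⟩ := henc u
    obtain ⟨m, hm2⟩ := hcd (p, u, a')
    refine ⟨V S m, ⟨S, hS, m, rfl⟩, ?_⟩
    ext i
    show V S m i = true ↔ _
    rw [hV, hm2]
    have hu' : domS dom S p u := hu
    have hdm : ∀ x, domS dom S p (hat dom S p u enc x) := hat_dom hu' enc
    have hsur : Function.Surjective fun x => f (hat dom S p u enc x) := by
      intro b
      obtain ⟨x, hx, hfx⟩ := hd.surj b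
      obtain ⟨y, hy⟩ := henc x
      refine ⟨y, ?_⟩
      have h2 : domS dom S p (enc y) := by rw [hy]; exact hx
      show f (hat dom S p u enc y) = b
      rw [hat_eq h2, hy]
      exact hfx
    have e1 : leH dom φ S p u enc =
        fun x y => bo.le (f (hat dom S p u enc x)) (f (hat dom S p u enc y)) := by
      funext x y
      refine propext ?_
      have h3 := hd.le (pr (hat dom S p u enc x) (hat dom S p u enc y)) (fun i => by
        have h4 : (fun j => pr (hat dom S p u enc x) (hat dom S p u enc y) (i, j)) =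
            if i = 0 then hat dom S p u enc x else hat dom S p u enc y := by
          funext j
          show (if i = 0 then _ else _) = _
          split_ifs <;> rfl
        rw [h4]
        split_ifs
        · exact hdm x
        · exact hdm y)
      exact h3
    have e2 : muH dom ψ S p u enc = fun x => mu (f (hat dom S p u enc x)) := by
      funext x
      show pick _ = _
      have h3 : (fun c => @Formula.Realize L ℕ S _ (ψ c) (Sum.elim p (hat dom S p u enc x))) =
          fun c => mu (f (hat dom S p u enc x)) = c := by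
        funext c
        exact propext (hd.val c _ (hdm x))
      rw [h3, pick_eq]
    have e3 : f (hat dom S p u enc a') = a := by
      have h2 : domS dom S p (enc a') := by rw [ha']; exact hu
      rw [hat_eq h2, ha']
      exact hfu
    show domS dom S p u ∧ Code G (leH dom φ S p u enc) (muH dom ψ S p u enc) i a' ↔ _
    rw [e1, e2, code_sur G hsur bo.le mu i a', e3, code_alg MEA MEW G bo mu i a]
    exact and_iff_right hu'
  · intro m i
    have e1 : {S : L.Structure ℕ | V S m i = true} =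
        {S : L.Structure ℕ | domS dom S (cd m).1 (cd m).2.1} ∩ {S : L.Structure ℕ |
          ∃ b, leH dom φ S (cd m).1 (cd m).2.1 enc b (cd m).2.2 ∧
            PPc (leH dom φ S (cd m).1 (cd m).2.1 enc)
              (Id0 G (leH dom φ S (cd m).1 (cd m).2.1 enc) (muH dom ψ S (cd m).1 (cd m).2.1 enc))
              i b} := by
      ext S
      exact hV S m i
    rw [e1]
    let _ : MeasurableSpace (L.Structure ℕ) := SM L
    exact (meas_form dom _).inter (MEW.2 (L.Structure ℕ)
      (fun S => leH dom φ S (cd m).1 (cd m).2.1 enc)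
      (fun S => Id0 G (leH dom φ S (cd m).1 (cd m).2.1 enc)
        (muH dom ψ S (cd m).1 (cd m).2.1 enc))
      (fun a b => meas_leH dom φ _ _ enc a b) (fun b => meas_Id MEA dom φ ψ G hG _ _ enc b) i
      (cd m).2.2)
  · rintro S S' ⟨e⟩ m
    have he := tr_iso e
    obtain ⟨σ, hσ⟩ : ∃ σ : ℕ ≃ ℕ, Tr S S' σ := ⟨_, he⟩
    obtain ⟨⟨p, d, a⟩, hpda⟩ : ∃ q, q = cd m := ⟨_, rfl⟩
    -- the number of the image
    obtain ⟨a', ha'⟩ := henc (fun i => σ (hat dom S p d enc a i))
    obtain ⟨m', hm'⟩ := hcd (fun i => σ (p i), fun i => σ (d i), a')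
    refine ⟨m', ?_⟩
    funext i
    rw [Bool.eq_iff_iff, hV, hV, hm', ← hpda]
    show domS dom S' (fun i => σ (p i)) (fun i => σ (d i)) ∧
      Code G (leH dom φ S' (fun i => σ (p i)) (fun i => σ (d i)) enc)
        (muH dom ψ S' (fun i => σ (p i)) (fun i => σ (d i)) enc) i a' ↔
      domS dom S p d ∧ Code G (leH dom φ S p d enc) (muH dom ψ S p d enc) i a
    rw [dom_tr hσ dom p d]
    refine and_congr_right fun hd => ?_
    have hd' : domS dom S' (fun i => σ (p i)) (fun i => σ (d i)) := (dom_tr hσ dom p d).2 hd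
    -- the two enumerations of the domain
    obtain ⟨hX, hhX⟩ : ∃ hX : ℕ → {u : Fin t → ℕ // domS dom S p u}, hX = fun x =>
      ⟨hat dom S p d enc x, hat_dom hd enc x⟩ := ⟨_, rfl⟩
    have hinv : ∀ u : Fin t → ℕ, (fun i => σ (σ.symm (u i))) = u := fun u => by
      funext i
      exact σ.apply_symm_apply _
    have hinv' : ∀ u : Fin t → ℕ, (fun i => σ.symm (σ (u i))) = u := fun u => by
      funext i
      exact σ.symm_apply_apply _
    have hdomY : ∀ y, domS dom S p (fun i => σ.symm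
        (hat dom S' (fun i => σ (p i)) (fun i => σ (d i)) enc y i)) := by
      intro y
      rw [← dom_tr hσ dom p, hinv]
      exact hat_dom hd' enc y
    obtain ⟨hY, hhY⟩ : ∃ hY : ℕ → {u : Fin t → ℕ // domS dom S p u}, hY = fun y =>
      ⟨fun i => σ.symm (hat dom S' (fun i => σ (p i)) (fun i => σ (d i)) enc y i), hdomY y⟩ :=
      ⟨_, rfl⟩
    have sX : Function.Surjective hX := by
      rintro ⟨u, hu⟩
      obtain ⟨x, hx⟩ := henc u
      refine ⟨x, ?_⟩
      rw [hhX]
      apply Subtype.ext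
      have h2 : domS dom S p (enc x) := by rw [hx]; exact hu
      show hat dom S p d enc x = u
      rw [hat_eq h2, hx]
    have sY : Function.Surjective hY := by
      rintro ⟨u, hu⟩
      obtain ⟨x, hx⟩ := henc (fun i => σ (u i))
      refine ⟨x, ?_⟩
      rw [hhY]
      apply Subtype.ext
      have h2 : domS dom S' (fun i => σ (p i)) (enc x) := by
        rw [hx]
        exact (dom_tr hσ dom p u).2 hu
      show (fun i => σ.symm (hat dom S' (fun i => σ (p i)) (fun i => σ (d i)) enc x i)) = u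
      rw [hat_eq h2, hx]
      exact hinv' u
    have haa : hY a' = hX a := by
      rw [hhX, hhY]
      apply Subtype.ext
      have h2 : domS dom S' (fun i => σ (p i)) (enc a') := by
        rw [ha']
        exact (dom_tr hσ dom p _).2 (hat_dom hd enc a)
      show (fun i => σ.symm (hat dom S' (fun i => σ (p i)) (fun i => σ (d i)) enc a' i)) =
        hat dom S p d enc a
      rw [hat_eq h2, ha']
      exact hinv' _
    have key := code_enum G sY sX (fun u w => leT φ S p u.1 w.1) (fun u => muT ψ S p u.1) haa i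
    have e1 : (fun x y => leT φ S p (hX x).1 (hX y).1) = leH dom φ S p d enc := by
      rw [hhX]
      rfl
    have e2 : (fun x => muT ψ S p (hX x).1) = muH dom ψ S p d enc := by
      rw [hhX]
      rfl
    have e3 : (fun x y => leT φ S p (hY x).1 (hY y).1) =
        leH dom φ S' (fun i => σ (p i)) (fun i => σ (d i)) enc := by
      funext x y
      rw [hhY]
      refine propext ?_
      rw [← le_tr hσ φ p]
      show leT φ S' _ (fun i => σ (σ.symm (hat dom S' (fun i => σ (p i)) (fun i => σ (d i)) enc x i)))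
        (fun i => σ (σ.symm (hat dom S' (fun i => σ (p i)) (fun i => σ (d i)) enc y i))) ↔ _
      rw [hinv, hinv]
      rfl
    have e4 : (fun x => muT ψ S p (hY x).1) =
        muH dom ψ S' (fun i => σ (p i)) (fun i => σ (d i)) enc := by
      funext x
      rw [hhY]
      rw [← mu_tr hσ ψ p]
      show muT ψ S' _ (fun i => σ (σ.symm (hat dom S' (fun i => σ (p i)) (fun i => σ (d i)) enc x i))) = _
      rw [hinv]
      rfl
    rw [e1, e2, e3, e4] at key
    exact key

end Pool.Agent.N164.VB.SW6
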